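import Pool.Agent.H51.MFQ.S1

/-!
# Board mfq, row CAR
-/

set_option autoImplicit false

open Module

namespace Pool.MFQ

namespace CarAux

/-- Independent functionals are jointly surjective. -/
theorem surj_of_li {E : Type} [NormedAddCommGroup E] [NormedSpace ℂ E] {r : ℕ}
    (φ : Fin r → (E →L[ℂ] ℂ)) (h : LinearIndependent ℂ φ) (y : Fin r → ℂ) :
    ∃ x : E, ∀ j, φ j x = y j := by
  classical
  let L : E →ₗ[ℂ] (Fin r → ℂ) := LinearMap.pi (fun j => (φ j : E →ₗ[ℂ] ℂ))
  have hL : LinearMap.range L = ⊤ := by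
    by_contra hne
    obtain ⟨g, hg0, hg⟩ := (LinearMap.range L).exists_le_ker_of_lt_top (lt_top_iff_ne_top.2 hne)
    apply hg0
    have h1 : ∀ x : Fin r → ℂ, g x = ∑ j, x j * g (Pi.single j 1) := by
      intro x
      rw [LinearMap.pi_apply_eq_sum_univ g x]
      refine Finset.sum_congr rfl fun j _ => ?_
      rw [smul_eq_mul]
      congr 2
      funext i
      rw [Pi.single_apply]
      simp only [eq_comm]
    have h2 : ∑ j, g (Pi.single j 1) • φ j = 0 := by
      ext x
      have h3 : g (L x) = 0 := hg ⟨x, rfl⟩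
      rw [h1] at h3
      rw [sum_apply, zero_apply, ← h3]
      refine Finset.sum_congr rfl fun j _ => ?_
      rw [smul_apply, smul_eq_mul, mul_comm]
      rfl
    have h4 := Fintype.linearIndependent_iff.1 h _ h2
    ext j
    simp [h4 j]
  obtain ⟨x, hx⟩ := LinearMap.range_eq_top.1 hL y
  exact ⟨x, fun j => congrFun hx j⟩

theorem analyticAt_det {E : Type} [NormedAddCommGroup E] [NormedSpace ℂ E] {r : ℕ}
    (B : E → Matrix (Fin r) (Fin r) ℂ) (a : E) (h : ∀ i j, AnalyticAt ℂ (fun ξ => B ξ i j) a) :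
    AnalyticAt ℂ (fun ξ => (B ξ).det) a := by
  simp only [Matrix.det_apply]
  refine Finset.analyticAt_fun_sum _ fun σ _ => ?_
  have : AnalyticAt ℂ (fun ξ => ∏ i, B ξ (σ i) i) a :=
    Finset.analyticAt_fun_prod _ fun i _ => h _ _
  simp only [Units.smul_def, zsmul_eq_mul]
  exact analyticAt_const.mul this

end CarAux

open CarAux in
theorem t_car : CARStmt := by
  intro E κ _ _ _ _ A a m r F f hm hr hF hli hf
  classical
  -- the vectors e
  choose e he using fun i : Fin r => surj_of_li _ hli (Pi.single i 1)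
  let B : E → Matrix (Fin r) (Fin r) ℂ := fun ξ => Matrix.of fun i j => fderiv ℂ (F j) ξ (e i)
  have hBan : ∀ i j, AnalyticAt ℂ (fun ξ => B ξ i j) a := by
    intro i j
    have h1 : AnalyticAt ℂ (fderiv ℂ (F j)) a := (hF j).1.fderiv
    exact ((ContinuousLinearMap.apply ℂ ℂ (e i)).analyticAt _).comp h1
  have hBa : B a = 1 := by
    ext i j
    show fderiv ℂ (F j) a (e i) = _
    rw [he i j, Matrix.one_apply, Pi.single_apply]
    by_cases h : i = j
    · simp [h]
    · rw [if_neg h, if_neg (fun hh => h hh.symm)]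
  have hdet : AnalyticAt ℂ (fun ξ => (B ξ).det) a := analyticAt_det B a hBan
  have hdet0 : ∀ᶠ ξ in nhds a, (B ξ).det ≠ 0 := by
    apply hdet.continuousAt.eventually_ne
    show (B a).det ≠ 0
    rw [hBa, Matrix.det_one]
    exact one_ne_zero
  let w : E → Fin r → ℂ := fun ξ i => fderiv ℂ f ξ (e i)
  let c : Fin r → E → ℂ := fun j ξ => ((B ξ).det)⁻¹ * (B ξ).cramer (w ξ) j
  have hcan : ∀ j, AnalyticAt ℂ (c j) a := by
    intro j
    refine AnalyticAt.mul (hdet.inv ?_) ?_
    · show (B a).det ≠ 0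
      rw [hBa, Matrix.det_one]
      exact one_ne_zero
    · have : (fun ξ => (B ξ).cramer (w ξ) j) = fun ξ => ((B ξ).updateCol j (w ξ)).det := by
        funext ξ
        rw [Matrix.cramer_apply]
      rw [this]
      refine analyticAt_det _ a fun i k => ?_
      by_cases hk : k = j
      · subst hk
        simp only [Matrix.updateCol_self]
        exact ((ContinuousLinearMap.apply ℂ ℂ (e i)).analyticAt _).comp hf.1.fderiv
      · simp only [Matrix.updateCol_ne hk]
        exact hBan i k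
  have hcB : ∀ ξ, (B ξ).det ≠ 0 → ∀ i, ∑ j, c j ξ * fderiv ℂ (F j) ξ (e i) = fderiv ℂ f ξ (e i) := by
    intro ξ hξ i
    have h1 := congrFun (Matrix.mulVec_cramer (B ξ) (w ξ)) i
    rw [Matrix.mulVec, dotProduct, Pi.smul_apply, smul_eq_mul] at h1
    have h2 : ∑ j, c j ξ * fderiv ℂ (F j) ξ (e i)
        = ((B ξ).det)⁻¹ * ∑ j, B ξ i j * (B ξ).cramer (w ξ) j := by
      rw [Finset.mul_sum]
      refine Finset.sum_congr rfl fun j _ => ?_
      show ((B ξ).det)⁻¹ * (B ξ).cramer (w ξ) j * B ξ i j = _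
      ring
    rw [h2, h1, ← mul_assoc, inv_mul_cancel₀ hξ, one_mul]
  -- the differentials near a
  have hFev : ∀ᶠ ξ in nhds a, ∀ j i, fderiv ℂ (F j) ξ (A i ξ) = 0 := by
    rw [Filter.eventually_all]
    exact fun j => (hF j).2
  have hrep : ∀ᶠ ξ in nhds a, fderiv ℂ f ξ = ∑ j, c j ξ • fderiv ℂ (F j) ξ := by
    filter_upwards [hm, hFev, hf.2, hdet0] with ξ hmξ hFξ hfξ hdξ
    -- surjectivity
    let L : E →ₗ[ℂ] (Fin r → ℂ) := LinearMap.pi (fun j => (fderiv ℂ (F j) ξ : E →ₗ[ℂ] ℂ))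
    have hLs : ∀ y : Fin r → ℂ, ∃ t : Fin r → ℂ, L (∑ i, t i • e i) = y := by
      intro y
      have hu : IsUnit (B ξ).det := isUnit_iff_ne_zero.2 hdξ
      refine ⟨Matrix.vecMul y (B ξ)⁻¹, ?_⟩
      have h1 : ∀ t : Fin r → ℂ, L (∑ i, t i • e i) = Matrix.vecMul t (B ξ) := by
        intro t
        funext j
        show fderiv ℂ (F j) ξ (∑ i, t i • e i) = _
        rw [map_sum]
        rw [Matrix.vecMul, dotProduct]
        refine Finset.sum_congr rfl fun i _ => ?_
        rw [map_smul, smul_eq_mul]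
        rfl
      rw [h1, Matrix.vecMul_vecMul, Matrix.nonsing_inv_mul _ hu, Matrix.vecMul_one]
    have hker : LinearMap.ker L = NN A ξ := by
      symm
      apply Submodule.eq_of_le_of_finrank_eq
      · refine Submodule.span_le.2 ?_
        rintro _ ⟨i, rfl⟩
        refine LinearMap.mem_ker.2 ?_
        funext j
        exact hFξ j i
      · have h1 := LinearMap.finrank_range_add_finrank_ker L
        have h2 : LinearMap.range L = ⊤ := by
          refine LinearMap.range_eq_top.2 fun y => ?_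
          obtain ⟨t, ht⟩ := hLs y
          exact ⟨_, ht⟩
        rw [h2, finrank_top, finrank_fin_fun] at h1
        rw [hmξ]
        omega
    ext x
    obtain ⟨t, ht⟩ := hLs (L x)
    have hx : x - ∑ i, t i • e i ∈ NN A ξ := by
      rw [← hker, LinearMap.mem_ker, map_sub, ht, sub_self]
    have hNN : ∀ y ∈ NN A ξ, fderiv ℂ f ξ y = 0 ∧ ∀ j, fderiv ℂ (F j) ξ y = 0 := by
      intro y hy
      refine Submodule.span_induction (p := fun y _ => fderiv ℂ f ξ y = 0 ∧
        ∀ j, fderiv ℂ (F j) ξ y = 0) ?_ ?_ ?_ ?_ hy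
      · rintro _ ⟨i, rfl⟩
        exact ⟨hfξ i, fun j => hFξ j i⟩
      · exact ⟨map_zero _, fun j => map_zero _⟩
      · intro y z _ _ h1 h2
        exact ⟨by rw [map_add, h1.1, h2.1, add_zero], fun j => by
          rw [map_add, h1.2 j, h2.2 j, add_zero]⟩
      · intro s y _ h1
        exact ⟨by rw [map_smul, h1.1, smul_zero], fun j => by
          rw [map_smul, h1.2 j, smul_zero]⟩
    have h3 := hNN _ hx
    have h4 : fderiv ℂ f ξ x = fderiv ℂ f ξ (∑ i, t i • e i) := by
      have := h3.1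
      rw [map_sub] at this
      exact sub_eq_zero.1 this
    have h5 : ∀ j, fderiv ℂ (F j) ξ x = fderiv ℂ (F j) ξ (∑ i, t i • e i) := by
      intro j
      have := h3.2 j
      rw [map_sub] at this
      exact sub_eq_zero.1 this
    rw [h4, sum_apply]
    simp only [smul_apply, smul_eq_mul, h5]
    simp only [map_sum, map_smul, smul_eq_mul]
    simp only [Finset.mul_sum]
    rw [Finset.sum_comm]
    refine Finset.sum_congr rfl fun i _ => ?_
    rw [← hcB ξ hdξ i, Finset.mul_sum]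
    refine Finset.sum_congr rfl fun j _ => ?_
    ring
  refine ⟨c, fun j => ⟨hcan j, ?_⟩, hrep⟩
  -- invariance of the coefficients
  have hFana : ∀ᶠ ξ in nhds a, ∀ j, AnalyticAt ℂ (F j) ξ := by
    rw [Filter.eventually_all]
    exact fun j => (hF j).1.eventually_analyticAt
  have hcana : ∀ᶠ ξ in nhds a, ∀ j, AnalyticAt ℂ (c j) ξ := by
    rw [Filter.eventually_all]
    exact fun j => (hcan j).eventually_analyticAt
  filter_upwards [hrep.eventually_nhds, hFana, hcana, hf.1.eventually_analyticAt, hFev, hdet0]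
    with ξ hrepξ hFξ hcξ hfξ hFaξ hdξ i
  have hsym : ∀ (g : E → ℂ), AnalyticAt ℂ g ξ → ∀ v w : E,
      fderiv ℂ (fderiv ℂ g) ξ v w = fderiv ℂ (fderiv ℂ g) ξ w v := by
    intro g hg v w
    have h1 : ContDiffAt ℂ 2 g ξ := hg.contDiffAt
    exact h1.isSymmSndFDerivAt (by simp) v w
  have hD2 : ∀ v w : E, fderiv ℂ (fderiv ℂ f) ξ v w =
      ∑ j, (c j ξ * fderiv ℂ (fderiv ℂ (F j)) ξ v w + fderiv ℂ (c j) ξ v * fderiv ℂ (F j) ξ w) := by
    intro v w
    have h1 : fderiv ℂ (fderiv ℂ f) ξ = fderiv ℂ (fun η => ∑ j, c j η • fderiv ℂ (F j) η) ξ :=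
      Filter.EventuallyEq.fderiv_eq hrepξ
    have h2 : HasFDerivAt (fun η => ∑ j, c j η • fderiv ℂ (F j) η)
        (∑ j, (c j ξ • fderiv ℂ (fderiv ℂ (F j)) ξ +
          (fderiv ℂ (c j) ξ).smulRight (fderiv ℂ (F j) ξ))) ξ := by
      refine HasFDerivAt.fun_sum fun j _ => ?_
      exact (hcξ j).differentiableAt.hasFDerivAt.smul
        (hFξ j).fderiv.differentiableAt.hasFDerivAt
    rw [h1, h2.fderiv]
    simp only [sum_apply, add_apply,
      smul_apply, ContinuousLinearMap.smulRight_apply, smul_eq_mul]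
  have hkey : ∀ w : E, ∑ j, fderiv ℂ (c j) ξ (A i ξ) * fderiv ℂ (F j) ξ w = 0 := by
    intro w
    have h1 := hD2 (A i ξ) w
    have h2 := hD2 w (A i ξ)
    rw [hsym f hfξ (A i ξ) w, h2] at h1
    have h3 : ∀ j, fderiv ℂ (F j) ξ (A i ξ) = 0 := fun j => hFaξ j i
    simp only [h3, mul_zero, add_zero] at h1
    rw [Finset.sum_add_distrib] at h1
    have h4 : ∑ j, c j ξ * fderiv ℂ (fderiv ℂ (F j)) ξ w (A i ξ) =
        ∑ j, c j ξ * fderiv ℂ (fderiv ℂ (F j)) ξ (A i ξ) w :=
      Finset.sum_congr rfl fun j _ => by rw [hsym (F j) (hFξ j)]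
    rw [h4] at h1
    exact left_eq_add.1 h1
  have hu : IsUnit (B ξ).det := isUnit_iff_ne_zero.2 hdξ
  have h5 : Matrix.mulVec (B ξ) (fun j => fderiv ℂ (c j) ξ (A i ξ)) = 0 := by
    funext k
    rw [Matrix.mulVec, dotProduct, Pi.zero_apply, ← hkey (e k)]
    refine Finset.sum_congr rfl fun j _ => ?_
    show fderiv ℂ (F j) ξ (e k) * _ = _
    ring
  have h6 : (fun j => fderiv ℂ (c j) ξ (A i ξ)) = 0 := by
    have := congrArg (Matrix.mulVec (B ξ)⁻¹) h5
    rwa [Matrix.mulVec_mulVec, Matrix.nonsing_inv_mul _ hu, Matrix.one_mulVec,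
      Matrix.mulVec_zero] at this
  exact congrFun h6 j


end Pool.MFQ
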