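import Pool.Agent.H51.MFQ.S1

/-!
# Board mfq, rows MET and CEV
-/

set_option autoImplicit false

open Module

namespace Pool.MFQ

theorem t_met (hSTV : STVStmt) : METStmt := by
  intro 𝔤 _ _ _ V hab hV ξ ξ' _ _ hξ
  ext x
  rw [hSTV 𝔤 V hab ξ x, hSTV 𝔤 V hab ξ' x]
  have h : ∀ x y : 𝔤, ξ ⁅x, y⁆ = ξ' ⁅x, y⁆ := fun x y => hξ _ (hV x y)
  simp only [h]

open MvPolynomial in
theorem t_cev : CEVStmt := by
  intro U J _ _ t ht
  let S : Subalgebra ℂ U := Algebra.adjoin ℂ (Set.range t)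
  let _ : CommRing S := Algebra.adjoinCommRingOfComm ℂ (by
    rintro _ ⟨a, rfl⟩ _ ⟨b, rfl⟩
    exact ht a b)
  let g : MvPolynomial J ℂ →ₐ[ℂ] S :=
    aeval (fun a => (⟨t a, Algebra.subset_adjoin ⟨a, rfl⟩⟩ : S))
  refine ⟨S.val.comp g, fun a => ?_, fun p q => ?_⟩
  · rw [AlgHom.comp_apply, aeval_X]
    rfl
  · rw [← map_mul, mul_comm, map_mul]


end Pool.MFQ
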