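import Pool.Agent.H51.MFQ.S1

/-!
# Board mfq, row TAY
-/

set_option autoImplicit false

open Module

namespace Pool.MFQ

theorem t_tay (hCAR : CARStmt) : TAYStmt := by
  intro E κ _ _ _ _ A a m r F hm hr hF hli k
  set S : Set (E → ℂ) := {P : E → ℂ | ∃ (j : Fin r) (i : ℕ), 1 ≤ i ∧ P = tayE a (F j) i} with hS
  induction k using Nat.strong_induction_on with
  | _ k ih =>
    intro f hk hf
    obtain ⟨n, rfl⟩ : ∃ n, k = n + 1 := ⟨k - 1, by omega⟩
    obtain ⟨c, hc, hrep⟩ := hCAR E κ A a m r F f hm hr hF hli hf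
    -- the line through a
    have hline : ∀ ξ : E, AnalyticAt ℂ (fun s : ℂ => a + s • ξ) 0 := fun ξ =>
      analyticAt_const.add (analyticAt_id.smul analyticAt_const)
    have hcomp : ∀ (g : E → ℂ), AnalyticAt ℂ g a → ∀ ξ : E,
        AnalyticAt ℂ (fun s : ℂ => g (a + s • ξ)) 0 := by
      intro g hg ξ
      exact AnalyticAt.fun_comp (by rwa [zero_smul, add_zero]) (hline ξ)
    have htend : ∀ ξ : E, Filter.Tendsto (fun s : ℂ => a + s • ξ) (nhds 0) (nhds a) := by
      intro ξ
      have h1 := (hline ξ).continuousAt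
      rw [ContinuousAt, zero_smul, add_zero] at h1
      exact h1
    have hder : ∀ (g : E → ℂ), AnalyticAt ℂ g a → ∀ ξ : E,
        ∀ᶠ s in nhds (0 : ℂ), deriv (fun s : ℂ => g (a + s • ξ)) s = fderiv ℂ g (a + s • ξ) ξ := by
      intro g hg ξ
      filter_upwards [(htend ξ).eventually hg.eventually_analyticAt] with s hs
      have h1 : HasDerivAt (fun s : ℂ => a + s • ξ) ξ s := by
        simpa using ((hasDerivAt_id s).smul_const ξ).const_add a
      exact (hs.differentiableAt.hasFDerivAt.comp_hasDerivAt s h1).deriv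
    have hmain : ∀ ξ : E, tayE a f (n + 1) ξ =
        ∑ j, ∑ i ∈ Finset.range (n + 1), ((((n + 1).factorial : ℕ) : ℂ)⁻¹ *
          ((n.choose i : ℂ) * ((i.factorial : ℕ) : ℂ) * (((n - i + 1).factorial : ℕ) : ℂ))) *
          (tayE a (c j) i ξ * tayE a (F j) (n - i + 1) ξ) := by
      intro ξ
      have h1 : (deriv fun s : ℂ => f (a + s • ξ)) =ᶠ[nhds 0] fun s =>
          ∑ j, c j (a + s • ξ) * deriv (fun s : ℂ => F j (a + s • ξ)) s := by
        have h2 : ∀ᶠ s in nhds (0 : ℂ), ∀ j, deriv (fun s : ℂ => F j (a + s • ξ)) s =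
            fderiv ℂ (F j) (a + s • ξ) ξ := by
          rw [Filter.eventually_all]
          exact fun j => hder (F j) (hF j).1 ξ
        filter_upwards [hder f hf.1 ξ, h2, (htend ξ).eventually hrep] with s h3 h4 h5
        rw [h3, h5, sum_apply]
        refine Finset.sum_congr rfl fun j _ => ?_
        rw [smul_apply, smul_eq_mul, h4 j]
      have hcd : ∀ j, ContDiffAt ℂ n (fun s : ℂ => c j (a + s • ξ)) 0 := fun j =>
        (hcomp (c j) (hc j).1 ξ).contDiffAt
      have hFd : ∀ j, ContDiffAt ℂ n (deriv fun s : ℂ => F j (a + s • ξ)) 0 := fun j =>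
        (hcomp (F j) (hF j).1 ξ).deriv.contDiffAt
      have h6 : iteratedDeriv (n + 1) (fun s : ℂ => f (a + s • ξ)) 0 =
          ∑ j, ∑ i ∈ Finset.range (n + 1), (n.choose i : ℂ) *
            iteratedDeriv i (fun s : ℂ => c j (a + s • ξ)) 0 *
            iteratedDeriv (n - i + 1) (fun s : ℂ => F j (a + s • ξ)) 0 := by
        rw [iteratedDeriv_succ', h1.iteratedDeriv_eq n,
          iteratedDeriv_fun_sum fun j _ => (hcd j).mul (hFd j)]
        refine Finset.sum_congr rfl fun j _ => ?_
        rw [iteratedDeriv_fun_mul (hcd j) (hFd j)]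
        refine Finset.sum_congr rfl fun i _ => ?_
        rw [iteratedDeriv_succ']
      unfold tayE
      rw [h6, Finset.mul_sum]
      refine Finset.sum_congr rfl fun j _ => ?_
      rw [Finset.mul_sum]
      refine Finset.sum_congr rfl fun i _ => ?_
      have e1 : ((i.factorial : ℕ) : ℂ) ≠ 0 := Nat.cast_ne_zero.2 (Nat.factorial_ne_zero _)
      have e2 : (((n - i + 1).factorial : ℕ) : ℂ) ≠ 0 :=
        Nat.cast_ne_zero.2 (Nat.factorial_ne_zero _)
      field_simp
    have hfun : tayE a f (n + 1) =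
        ∑ j, ∑ i ∈ Finset.range (n + 1), ((((n + 1).factorial : ℕ) : ℂ)⁻¹ *
          ((n.choose i : ℂ) * ((i.factorial : ℕ) : ℂ) * (((n - i + 1).factorial : ℕ) : ℂ))) •
          (tayE a (c j) i * tayE a (F j) (n - i + 1)) := by
      funext ξ
      rw [hmain ξ, Finset.sum_apply]
      refine Finset.sum_congr rfl fun j _ => ?_
      rw [Finset.sum_apply]
      refine Finset.sum_congr rfl fun i _ => ?_
      rw [Pi.smul_apply, Pi.mul_apply, smul_eq_mul]
    rw [hfun]
    refine Subalgebra.sum_mem _ fun j _ => Subalgebra.sum_mem _ fun i hi => ?_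
    refine Subalgebra.smul_mem _ (Subalgebra.mul_mem _ ?_ ?_) _
    · rcases Nat.eq_zero_or_pos i with h0 | h0
      · subst h0
        have : tayE a (c j) 0 = algebraMap ℂ (E → ℂ) (c j a) := by
          funext ξ
          simp [tayE]
        rw [this]
        exact Subalgebra.algebraMap_mem _ _
      · exact ih i (Finset.mem_range.1 hi) (c j) h0 (hc j)
    · exact Algebra.subset_adjoin ⟨j, n - i + 1, by omega, rfl⟩


end Pool.MFQ
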